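import Pool.Agent.Y52.SJ.Stm6
import Pool.Agent.Y726.SJ.SEC

/-!
# Project SJ (helper52), job SC: the unconditional part of the section

Author of this file: helper67, with the lemmas of helper726.
-/

set_option autoImplicit false

namespace Pool.Agent.Y67.SJ.SC

open Pool.Agent.Y52.SJ Pool.Agent.Y726.SJ.SEC Set

/-- the sign vector of a family of booleans -/
noncomputable def sv {m : ℕ} (s : Fin m → Bool) (i : Fin m) : ℝ := if s i then 1 else -1

theorem sv_abs {m : ℕ} (s : Fin m → Bool) (i : Fin m) : |sv s i| = 1 := by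
  unfold sv
  split_ifs <;> simp

theorem exists_sv {m : ℕ} (a : Fin m → ℝ) (ha : ∀ i, |a i| = 1) :
    ∃ s : Fin m → Bool, ∀ i, sv s i = a i := by
  classical
  refine ⟨fun i => decide (a i = 1), fun i => ?_⟩
  unfold sv
  by_cases h : a i = 1
  · rw [if_pos (decide_eq_true h), h]
  · rw [if_neg (by simpa using h)]
    rcases eq_or_eq_neg_of_abs_eq (ha i) with h' | h'
    · exact absurd h' h
    · exact h'.symm

theorem main : S_SC := by
  intro m A hA K ho hc hb hne hu
  obtain ⟨hsym, hpt⟩ := hu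
  obtain ⟨z0, hz0⟩ := hne
  have h00 : ((0 : Fin m → ℝ), (0 : Fin m → ℝ)) ∈ K := by
    have h2 := hc hz0 (hsym z0 hz0) (by norm_num : (0 : ℝ) ≤ 1 / 2)
      (by norm_num : (0 : ℝ) ≤ 1 / 2) (by norm_num)
    rw [smul_neg, add_neg_cancel] at h2
    exact h2
  obtain ⟨S, hS⟩ : ∃ S : Set (Fin m → ℝ), S = ⋂ s : Fin m → Bool,
      (fun q : Fin m → ℝ => ((fun i => sv s i * q i, 0) : (Fin m → ℝ) × (Fin m → ℝ))) ⁻¹' K :=
    ⟨_, rfl⟩
  have hmem : ∀ q, q ∈ S ↔ ∀ a : Fin m → ℝ, (∀ i, |a i| = 1) →
      ((fun i => a i * q i, 0) : (Fin m → ℝ) × (Fin m → ℝ)) ∈ K := by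
    intro q
    rw [hS, mem_iInter]
    constructor
    · intro h a ha
      obtain ⟨s, hs⟩ := exists_sv a ha
      have h1 := h s
      rw [mem_preimage] at h1
      simp only [hs] at h1
      exact h1
    · intro h s
      exact h _ (sv_abs s)
  have hSo : IsOpen S := by
    rw [hS]
    refine isOpen_iInter_of_finite fun s => ho.preimage ?_
    exact (continuous_pi fun i => continuous_const.mul (continuous_apply i)).prodMk
      continuous_const
  have hSc : Convex ℝ S := by
    intro x hx y hy a b ha hb' hab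
    rw [hmem] at hx hy ⊢
    intro e he
    have h1 := hc (hx e he) (hy e he) ha hb' hab
    have h2 : a • ((fun i => e i * x i, 0) : (Fin m → ℝ) × (Fin m → ℝ)) +
        b • ((fun i => e i * y i, 0) : (Fin m → ℝ) × (Fin m → ℝ)) =
        (fun i => e i * (a • x + b • y) i, 0) := by
      refine Prod.ext ?_ ?_
      · funext i
        simp only [Prod.fst_add, Prod.smul_fst, Pi.add_apply, Pi.smul_apply, smul_eq_mul]
        ring
      · simp
    rw [h2] at h1
    exact h1
  have hone : ∀ q ∈ S, ((q, 0) : (Fin m → ℝ) × (Fin m → ℝ)) ∈ K := by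
    intro q hq
    have h1 := (hmem q).1 hq (fun _ => 1) (fun _ => by simp)
    simp only [one_mul] at h1
    exact h1
  have hSb : Bornology.IsBounded S := by
    obtain ⟨C, hC⟩ := isBounded_iff_forall_norm_le.1 hb
    refine isBounded_iff_forall_norm_le.2 ⟨C, fun x hx => ?_⟩
    exact (norm_fst_le (x, (0 : Fin m → ℝ))).trans (hC _ (hone x hx))
  have hS0 : (0 : Fin m → ℝ) ∈ S := by
    rw [hmem]
    intro a _
    have e : (fun i => a i * (0 : Fin m → ℝ) i) = 0 := by
      funext i
      simp
    rw [e]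
    exact h00
  have hSs : Sgn S := by
    intro x hx a ha
    rw [hmem] at hx ⊢
    intro e he
    have h1 := hx (fun i => e i * a i) (fun i => by rw [abs_mul, he, ha, mul_one])
    simp only [mul_assoc] at h1
    exact h1
  refine ⟨closure S, body_closure hSo hSc hSb hS0 hSs, fun z hz => subset_closure ?_, ?_⟩
  · rw [hmem]
    intro a ha
    have h1 := hpt z hz a ha
    have e : (fun i => a i * (A⁻¹ • z.1) i) = fun i => A⁻¹ * (a i * z.1 i) := by
      funext i
      simp only [Pi.smul_apply, smul_eq_mul]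
      ring
    rw [e]
    exact h1
  · intro q hq r hr0 hr1
    exact hone _ (smul_mem hSo hSc hS0 hq hr0.le hr1)

end Pool.Agent.Y67.SJ.SC
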